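import Pool.Agent.H24.SCG2.Stmts3

/-!
Project SCG2, row CNJ: conjugate groups.
-/

namespace Pool.Agent.H40.SCG2

open Pool.SCG

theorem cnj_thm : CNJStmt := by
  intro A _ G r φ ⟨ρ, hρ, hG⟩
  set f : A →* A := (MulAut.conj φ).toMonoidHom with hf
  have hinj : Function.Injective f := (MulAut.conj φ).injective
  have himg : ∀ I : Set (Fin r), Subgroup.closure ((fun i => f (ρ i)) '' I) =
      (Subgroup.closure (ρ '' I)).map f := by
    intro I
    rw [MonoidHom.map_closure, Set.image_image]
  refine ⟨fun i => f (ρ i), ⟨fun i => ?_, fun i j hij => ?_, fun I J => ?_⟩, ?_⟩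
  · rw [orderOf_injective f hinj]
    exact hρ.invol i
  · rw [← map_mul, hρ.comm i j hij, map_mul]
  · rw [himg, himg, himg, ← Subgroup.map_inf_eq _ _ f hinj, hρ.inter]
  · rw [← hG, MonoidHom.map_closure, ← Set.range_comp]
    rfl

end Pool.Agent.H40.SCG2
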