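import Pool.Agent.H24.SCG2.Stmts4
import Pool.Agent.H24.SCG2.Base3

/-!
Project SCG2, row CTH: the centraliser of two polarities.
-/

namespace Pool.Agent.H40.SCG2

open Pool.SCG Matrix

/-- entries of the relation between two forms -/
theorem cth_eqs {F : Type} [Field F] {M : Matrix (Fin 3) (Fin 3) F} {t r g : F}
    (h : M.transpose * Th t * M = r • Th g) :
    2 * (M 0 0 * M 2 0) + t * M 1 0 ^ 2 = 0 ∧ 2 * (M 0 2 * M 2 2) + t * M 1 2 ^ 2 = 0 ∧
    M 0 0 * M 2 1 + M 2 0 * M 0 1 + t * (M 1 0 * M 1 1) = 0 ∧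
    M 0 1 * M 2 2 + M 2 1 * M 0 2 + t * (M 1 1 * M 1 2) = 0 ∧
    2 * (M 0 1 * M 2 1) + t * M 1 1 ^ 2 = r * g ∧
    M 0 0 * M 2 2 + M 2 0 * M 0 2 + t * (M 1 0 * M 1 2) = r := by
  have e : ∀ i j, (M.transpose * Th t * M) i j = (r • Th g) i j := fun i j => by rw [h]
  have e00 := e 0 0
  have e22 := e 2 2
  have e01 := e 0 1
  have e12 := e 1 2
  have e11 := e 1 1
  have e02 := e 0 2
  simp [Matrix.mul_apply, Fin.sum_univ_three, Th] at e00 e22 e01 e12 e11 e02
  refine ⟨?_, ?_, ?_, ?_, ?_, ?_⟩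
  · linear_combination e00
  · linear_combination e22
  · linear_combination e01
  · linear_combination e12
  · linear_combination e11
  · linear_combination e02

/-- common consequences -/
theorem cth_core {F : Type} [Field F] (h2 : (2 : F) ≠ 0) {M : Matrix (Fin 3) (Fin 3) F}
    {t t' r r' g g' : F} (hr : r ≠ 0) (ht : t ≠ t')
    (h : M.transpose * Th t * M = r • Th g) (h' : M.transpose * Th t' * M = r' • Th g') :
    r = r' ∧ M 1 0 = 0 ∧ M 1 2 = 0 ∧ t * M 1 1 ^ 2 = r * g ∧ t' * M 1 1 ^ 2 = r * g' ∧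
      M 0 1 = 0 ∧ M 2 1 = 0 ∧
      ((M 0 2 = 0 ∧ M 2 0 = 0 ∧ M 0 0 * M 2 2 = r) ∨
        (M 0 0 = 0 ∧ M 2 2 = 0 ∧ M 0 2 * M 2 0 = r)) := by
  obtain ⟨a1, a2, a3, a4, a5, a6⟩ := cth_eqs h
  obtain ⟨b1, b2, b3, b4, b5, b6⟩ := cth_eqs h'
  have hd : t - t' ≠ 0 := sub_ne_zero.2 ht
  have m10 : M 1 0 = 0 := by
    have : (t - t') * M 1 0 ^ 2 = 0 := by linear_combination a1 - b1
    exact pow_eq_zero_iff (two_ne_zero) |>.1 ((mul_eq_zero.1 this).resolve_left hd)
  have m12 : M 1 2 = 0 := by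
    have : (t - t') * M 1 2 ^ 2 = 0 := by linear_combination a2 - b2
    exact pow_eq_zero_iff (two_ne_zero) |>.1 ((mul_eq_zero.1 this).resolve_left hd)
  rw [m10] at a1 a3 a6 b6
  rw [m12] at a2 a4 a6 b6
  have hrr : r = r' := by linear_combination b6 - a6
  have c1 : M 0 0 * M 2 0 = 0 := by
    have : 2 * (M 0 0 * M 2 0) = 0 := by linear_combination a1
    exact (mul_eq_zero.1 this).resolve_left h2
  have c2 : M 0 2 * M 2 2 = 0 := by
    have : 2 * (M 0 2 * M 2 2) = 0 := by linear_combination a2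
    exact (mul_eq_zero.1 this).resolve_left h2
  have c3 : M 0 0 * M 2 1 + M 2 0 * M 0 1 = 0 := by linear_combination a3
  have c4 : M 0 1 * M 2 2 + M 2 1 * M 0 2 = 0 := by linear_combination a4
  have c6 : M 0 0 * M 2 2 + M 2 0 * M 0 2 = r := by linear_combination a6
  have key : M 0 1 = 0 ∧ M 2 1 = 0 ∧
      ((M 0 2 = 0 ∧ M 2 0 = 0 ∧ M 0 0 * M 2 2 = r) ∨
        (M 0 0 = 0 ∧ M 2 2 = 0 ∧ M 0 2 * M 2 0 = r)) := by
    rcases mul_eq_zero.1 c1 with h0 | h0
    · rw [h0] at c3 c6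
      have hp : M 2 0 * M 0 2 = r := by linear_combination c6
      have h20 : M 2 0 ≠ 0 := by
        intro h; rw [h, zero_mul] at hp; exact hr hp.symm
      have h02 : M 0 2 ≠ 0 := by
        intro h; rw [h, mul_zero] at hp; exact hr hp.symm
      have h22 : M 2 2 = 0 := (mul_eq_zero.1 c2).resolve_left h02
      have h01 : M 0 1 = 0 := by
        have : M 2 0 * M 0 1 = 0 := by linear_combination c3
        exact (mul_eq_zero.1 this).resolve_left h20
      have h21 : M 2 1 = 0 := by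
        rw [h01] at c4
        have : M 2 1 * M 0 2 = 0 := by linear_combination c4
        exact (mul_eq_zero.1 this).resolve_right h02
      exact ⟨h01, h21, Or.inr ⟨h0, h22, by linear_combination hp⟩⟩
    · rw [h0] at c3 c6
      have hp : M 0 0 * M 2 2 = r := by linear_combination c6
      have h00 : M 0 0 ≠ 0 := by
        intro h; rw [h, zero_mul] at hp; exact hr hp.symm
      have h22 : M 2 2 ≠ 0 := by
        intro h; rw [h, mul_zero] at hp; exact hr hp.symm
      have h02 : M 0 2 = 0 := (mul_eq_zero.1 c2).resolve_right h22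
      have h21 : M 2 1 = 0 := by
        have : M 0 0 * M 2 1 = 0 := by linear_combination c3
        exact (mul_eq_zero.1 this).resolve_left h00
      have h01 : M 0 1 = 0 := by
        rw [h21] at c4
        have : M 0 1 * M 2 2 = 0 := by linear_combination c4
        exact (mul_eq_zero.1 this).resolve_right h22
      exact ⟨h01, h21, Or.inl ⟨h02, h0, hp⟩⟩
  obtain ⟨h01, h21, hcase⟩ := key
  rw [h01] at a5 b5
  refine ⟨hrr, m10, m12, ?_, ?_, h01, h21, hcase⟩
  · linear_combination a5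
  · rw [hrr]; linear_combination b5

theorem th_mul {F : Type} [Field F] {g : F} (hg : g ≠ 0) : Th g * Th g⁻¹ = 1 := by
  ext i j
  fin_cases i <;> fin_cases j <;> simp [Th, Matrix.mul_apply, Fin.sum_univ_three, hg]

theorem th_symm {F : Type} [Field F] (g : F) : (Th g).transpose = Th g := by
  ext i j
  fin_cases i <;> fin_cases j <;> simp [Th]

theorem cth_thm : CTHStmt := by
  intro F _ h2 x θ θ' s M g g' hg hg' hgg hθ hθ' hx hc hc'
  have hdet := hx.det_ne
  have hM : M * M⁻¹ = 1 := Matrix.mul_nonsing_inv _ (isUnit_iff_ne_zero.2 hdet)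
  have hM' : M.transpose * (M⁻¹).transpose = 1 := by
    rw [← Matrix.transpose_mul, Matrix.nonsing_inv_mul _ (isUnit_iff_ne_zero.2 hdet),
      Matrix.transpose_one]
  have hne : g ≠ g' := by
    rintro rfl
    exact hgg rfl
  cases s with
  | false =>
    have key : ∀ (θ : MulAut (SL3 F)) (g : F), GIs θ true (Th g) → x * θ = θ * x →
        ∃ c : F, c ≠ 0 ∧ M.transpose * Th g * M = c • Th g := by
      intro θ g hθ hc
      have h3 := hx.mul_outer hθ hM
      have h4 := hθ.mul_inner hx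
      rw [← hc] at h4
      obtain ⟨-, c, hc0, h5⟩ := h3.uniq h4
      refine ⟨c, hc0, ?_⟩
      rw [mul_assoc, h5, Matrix.mul_smul, ← mul_assoc, hM', one_mul]
    obtain ⟨c, hc0, e1⟩ := key θ g hθ hc
    obtain ⟨c', hc0', e2⟩ := key θ' g' hθ' hc'
    obtain ⟨-, m10, m12, e3, -, m01, m21, hcase⟩ := cth_core h2 hc0 hne e1 e2
    have m11 : M 1 1 ^ 2 = c := by
      have : g * M 1 1 ^ 2 = g * c := by rw [e3, mul_comm]
      exact mul_left_cancel₀ hg this
    have h11 : M 1 1 ≠ 0 := by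
      intro h
      rw [h] at m11
      exact hc0 (by rw [← m11]; ring)
    rcases hcase with ⟨m02, m20, e4⟩ | ⟨m00, m22, e4⟩
    · have h00 : M 0 0 ≠ 0 := by
        intro h; rw [h, zero_mul] at e4; exact hc0 e4.symm
      refine ⟨M 0 0 / M 1 1, div_ne_zero h00 h11, Or.inl ?_⟩
      have h5 := hx.smul (inv_ne_zero h11)
      have e5 : (M 1 1)⁻¹ • M = dg (M 0 0 / M 1 1) 1 (M 0 0 / M 1 1)⁻¹ := by
        have e6 : (M 1 1)⁻¹ * M 2 2 = (M 0 0 / M 1 1)⁻¹ := by
          rw [inv_div, eq_div_iff h00]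
          field_simp
          rw [← m11] at e4
          linear_combination e4
        ext i j
        fin_cases i <;> fin_cases j <;> simp [dg, m10, m12, m01, m21, m02, m20, h11]
        · rw [div_eq_inv_mul]
        · rw [e6, inv_div]
      rwa [e5] at h5
    · have h02 : M 0 2 ≠ 0 := by
        intro h; rw [h, zero_mul] at e4; exact hc0 e4.symm
      refine ⟨-(M 0 2 / M 1 1), neg_ne_zero.2 (div_ne_zero h02 h11), Or.inr ?_⟩
      have h5 := hx.smul (neg_ne_zero.2 (inv_ne_zero h11))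
      have e5 : (-(M 1 1)⁻¹) • M = An (-(M 0 2 / M 1 1)) := by
        have e6 : (-(M 1 1)⁻¹) * M 2 0 = (-(M 0 2 / M 1 1))⁻¹ := by
          rw [inv_neg, inv_div, neg_mul, neg_inj, eq_div_iff h02]
          field_simp
          rw [← m11] at e4
          linear_combination e4
        have e7 : (-(M 1 1)⁻¹) * M 0 2 = -(M 0 2 / M 1 1) := by
          rw [div_eq_inv_mul]; ring
        have e8 : (-(M 1 1)⁻¹) * M 1 1 = -1 := by
          rw [neg_mul, inv_mul_cancel₀ h11]
        unfold An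
        ext i j
        fin_cases i <;> fin_cases j <;>
          simp only [Matrix.smul_apply, smul_eq_mul, Matrix.of_apply, Matrix.cons_val', Fin.zero_eta,
            Fin.mk_one, Fin.reduceFinMk, Matrix.cons_val_zero, Matrix.cons_val_one,
            Matrix.cons_val, m10, m12, m01, m21, m00, m22, mul_zero, e6, e7, e8]
      rwa [e5] at h5
  | true =>
    exfalso
    have key : ∀ (θ : MulAut (SL3 F)) (g : F), g ≠ 0 → GIs θ true (Th g) → x * θ = θ * x →
        ∃ c : F, c ≠ 0 ∧ M.transpose * Th g⁻¹ * M = c • Th g := by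
      intro θ g hg hθ hc
      have h3 := hx.mul_outer hθ hM
      have h4 := hθ.mul_outer hx (th_mul hg)
      rw [← hc, th_symm] at h4
      obtain ⟨-, c, hc0, h5⟩ := h3.uniq h4
      refine ⟨c, hc0, ?_⟩
      rw [mul_assoc, h5, Matrix.mul_smul, ← mul_assoc, hM', one_mul]
    obtain ⟨c, hc0, e1⟩ := key θ g hg hθ hc
    obtain ⟨c', hc0', e2⟩ := key θ' g' hg' hθ' hc'
    have hne' : g⁻¹ ≠ g'⁻¹ := fun h => hne (inv_injective h)
    obtain ⟨-, -, -, e3, e4, -⟩ := cth_core h2 hc0 hne' e1 e2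
    have e5 : M 1 1 ^ 2 = c * g ^ 2 := by
      have : g * (g⁻¹ * M 1 1 ^ 2) = g * (c * g) := by rw [e3]
      rw [← mul_assoc, mul_inv_cancel₀ hg, one_mul] at this
      rw [this]; ring
    have e6 : M 1 1 ^ 2 = c * g' ^ 2 := by
      have : g' * (g'⁻¹ * M 1 1 ^ 2) = g' * (c * g') := by rw [e4]
      rw [← mul_assoc, mul_inv_cancel₀ hg', one_mul] at this
      rw [this]; ring
    exact hgg (mul_left_cancel₀ hc0 (e5.symm.trans e6))

end Pool.Agent.H40.SCG2
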