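import Pool.Agent.H24.SCG2.Stmts1
import Pool.Agent.H1.SCG.ZODD

/-!
Module DK0 of the project SCG2: a group without parabolic elements, common fixed point and
invariant pair has only elements of order at most five.
-/

namespace Pool.Agent.H40.SCG2

open Pool.SCG Pool.Agent.H1.SCG

theorem arith3 (n o1 a1 o2 a2 o3 a3 : ℕ) (hn : 0 < n) (c1 : o1 * (a1 + 1) = n)
    (c2 : o2 * (a2 + 1) = n) (c3 : o3 * (a3 + 1) = n) (h1 : 5 ≤ a1) (h2 : 1 ≤ a2) (h3 : 1 ≤ a3)
    (hsum : o1 * a1 + (o2 * a2 + o3 * a3) = 2 * (n - 1)) : o1 = 2 := by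
  have e1 : o1 * (a1 + 1) = o1 * a1 + o1 := by ring
  have e2 : o2 * (a2 + 1) = o2 * a2 + o2 := by ring
  have e3 : o3 * (a3 + 1) = o3 * a3 + o3 := by ring
  have i1 : o1 * 6 ≤ n := by
    rw [← c1]
    exact Nat.mul_le_mul_left _ (by omega)
  rcases Nat.lt_or_ge 1 a2 with k2 | k2
  · have i2 : o2 * 3 ≤ n := by
      rw [← c2]
      exact Nat.mul_le_mul_left _ (by omega)
    rcases Nat.lt_or_ge 1 a3 with k3 | k3
    · have i3 : o3 * 3 ≤ n := by
        rw [← c3]
        exact Nat.mul_le_mul_left _ (by omega)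
      omega
    · have : a3 = 1 := by omega
      subst this
      omega
  · have : a2 = 1 := by omega
    subst this
    rcases Nat.lt_or_ge 1 a3 with k3 | k3
    · have i3 : o3 * 3 ≤ n := by
        rw [← c3]
        exact Nat.mul_le_mul_left _ (by omega)
      omega
    · have : a3 = 1 := by omega
      subst this
      omega

theorem arith4 (n o1 a1 o2 a2 o3 a3 o4 a4 : ℕ) (hn : 0 < n) (c1 : o1 * (a1 + 1) = n)
    (c2 : o2 * (a2 + 1) = n) (c3 : o3 * (a3 + 1) = n) (c4 : o4 * (a4 + 1) = n) (h1 : 1 ≤ a1)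
    (h2 : 1 ≤ a2) (h3 : 1 ≤ a3) (h4 : 1 ≤ a4)
    (hsum : o1 * a1 + (o2 * a2 + o3 * a3) + o4 * a4 ≤ 2 * (n - 1)) : False := by
  have e1 : o1 * (a1 + 1) = o1 * a1 + o1 := by ring
  have e2 : o2 * (a2 + 1) = o2 * a2 + o2 := by ring
  have e3 : o3 * (a3 + 1) = o3 * a3 + o3 := by ring
  have e4 : o4 * (a4 + 1) = o4 * a4 + o4 := by ring
  have i1 : o1 * 2 ≤ n := by
    rw [← c1]
    exact Nat.mul_le_mul_left _ (by omega)
  have i2 : o2 * 2 ≤ n := by
    rw [← c2]
    exact Nat.mul_le_mul_left _ (by omega)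
  have i3 : o3 * 2 ≤ n := by
    rw [← c3]
    exact Nat.mul_le_mul_left _ (by omega)
  have i4 : o4 * 2 ≤ n := by
    rw [← c4]
    exact Nat.mul_le_mul_left _ (by omega)
  omega

section

variable {K Ω : Type} [Group K] [Fintype K] [MulAction K Ω]

theorem main (hZ : Zas K Ω) (hpar : ∀ (g : K) (x : Ω), ¬ Par g x)
    (hfix : ∀ x : Ω, ∃ g : K, g • x ≠ x)
    (hpair : ∀ x y : Ω, x ≠ y → ∃ g : K, (g • x ≠ x ∧ g • x ≠ y) ∨ (g • y ≠ x ∧ g • y ≠ y))
    (g : K) : orderOf g ≤ 5 := by
  classical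
  by_contra hg
  push Not at hg
  obtain ⟨y, hy⟩ := hZ.fix1 g
  obtain ⟨S, hS, hsum⟩ := count hZ
  have hB : ∀ x : Ω, (fB (K := K) x).card = 0 := by
    intro x
    rw [Finset.card_eq_zero]
    ext u
    simp only [fB, Finset.mem_filter, Finset.mem_univ, true_and, Finset.notMem_empty, iff_false]
    rintro ⟨-, h⟩
    exact hpar u x h
  have ay5 : 5 ≤ (fA (K := K) y).card := by
    have h1 := card_stab (K := K) y
    have hm : g ∈ MulAction.stabilizer K y := MulAction.mem_stabilizer_iff.2 hy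
    have h2 := Nat.le_of_dvd Nat.card_pos
      (Subgroup.orderOf_dvd_natCard (MulAction.stabilizer K y) hm)
    omega
  have hne1 : ∀ x : Ω, (fO K x).card ≠ 1 := by
    intro x h
    obtain ⟨k, hk⟩ := hfix x
    exact hk (fixed_of_card h k)
  have hopos : ∀ x : Ω, 0 < (fO K x).card := fun x =>
    Finset.card_pos.2 ⟨x, mem_fO.2 ⟨1, one_smul _ _⟩⟩
  have hsub : ∀ x ∈ S, fO K x ⊆ S := by
    intro x hx z hz
    obtain ⟨g, rfl⟩ := mem_fO.1 hz
    rw [hS, card_fA_smul]
    exact (hS x).1 hx
  have hKpos : 0 < Nat.card K := Nat.card_pos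
  have hyS : y ∈ S := by rw [hS]; omega
  have cy := card_orb (K := K) y
  have sy := sum_orb (K := K) y
  rw [hB, add_zero] at sy
  have o1 := hne1 y
  have p1 := hopos y
  by_cases hcase : ∀ z ∈ S, z ∈ fO K y
  · have hSe : S = fO K y := Finset.Subset.antisymm hcase (hsub y hyS)
    rw [hSe, sy] at hsum
    have e1 : (fO K y).card * ((fA (K := K) y).card + 1) =
      (fO K y).card * (fA (K := K) y).card + (fO K y).card := by ring
    have e2 : (fO K y).card * 6 ≤ Nat.card K := by
      rw [← cy]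
      exact Nat.mul_le_mul_left _ (by omega)
    omega
  push Not at hcase
  obtain ⟨z, hzS, hzy⟩ := hcase
  have cz := card_orb (K := K) z
  have sz := sum_orb (K := K) z
  rw [hB, add_zero] at sz
  have az1 := (hS z).1 hzS
  have o2 := hne1 z
  have p2 := hopos z
  by_cases hcase2 : ∀ w ∈ S, w ∈ fO K y ∨ w ∈ fO K z
  · have hSe : S = (fO K y).disjUnion (fO K z) (fO_disj hzy) := by
      ext w
      rw [Finset.mem_disjUnion]
      constructor
      · exact hcase2 w
      · rintro (h | h)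
        · exact hsub y hyS h
        · exact hsub z hzS h
    rw [hSe, Finset.sum_disjUnion, sy, sz] at hsum
    have e1 : (fO K y).card * ((fA (K := K) y).card + 1) =
      (fO K y).card * (fA (K := K) y).card + (fO K y).card := by ring
    have e2 : (fO K z).card * ((fA (K := K) z).card + 1) =
      (fO K z).card * (fA (K := K) z).card + (fO K z).card := by ring
    omega
  push Not at hcase2
  obtain ⟨x, hxS, hxy, hxz⟩ := hcase2
  have cx := card_orb (K := K) x
  have sx := sum_orb (K := K) x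
  rw [hB, add_zero] at sx
  have ax1 := (hS x).1 hxS
  have hd : Disjoint (fO K y) ((fO K z).disjUnion (fO K x) (fO_disj hxz)) :=
    Finset.disjoint_left.2 (fun v hv hv' => by
      rcases Finset.mem_disjUnion.1 hv' with h | h
      · exact Finset.disjoint_left.1 (fO_disj hzy) hv h
      · exact Finset.disjoint_left.1 (fO_disj hxy) hv h)
  have hsubU : ∀ v ∈ (fO K y).disjUnion ((fO K z).disjUnion (fO K x) (fO_disj hxz)) hd, v ∈ S := by
    intro v hv
    rcases Finset.mem_disjUnion.1 hv with h | h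
    · exact hsub y hyS h
    · rcases Finset.mem_disjUnion.1 h with h | h
      · exact hsub z hzS h
      · exact hsub x hxS h
  by_cases hcase3 : ∀ w ∈ S, w ∈ fO K y ∨ w ∈ fO K z ∨ w ∈ fO K x
  · have hSe : S = (fO K y).disjUnion ((fO K z).disjUnion (fO K x) (fO_disj hxz)) hd := by
      ext w
      rw [Finset.mem_disjUnion, Finset.mem_disjUnion]
      constructor
      · exact hcase3 w
      · intro h
        exact hsubU w (Finset.mem_disjUnion.2 (h.imp id (fun h => Finset.mem_disjUnion.2 h)))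
    rw [hSe, Finset.sum_disjUnion, Finset.sum_disjUnion, sy, sz, sx] at hsum
    have h2 := arith3 _ _ _ _ _ _ _ hKpos cy cz cx ay5 az1 ax1 hsum
    obtain ⟨a, b, hab, he⟩ := Finset.card_eq_two.1 h2
    have hinv : ∀ (k : K) (w : Ω), w ∈ fO K y → k • w ∈ fO K y := by
      intro k w hw
      obtain ⟨l, rfl⟩ := mem_fO.1 hw
      exact mem_fO.2 ⟨k * l, mul_smul _ _ _⟩
    obtain ⟨k, hk⟩ := hpair a b hab
    have ma : a ∈ fO K y := by
      rw [he]
      simp
    have mb : b ∈ fO K y := by
      rw [he]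
      simp
    have ka := hinv k a ma
    have kb := hinv k b mb
    rw [he, Finset.mem_insert, Finset.mem_singleton] at ka kb
    rcases hk with ⟨h3, h4⟩ | ⟨h3, h4⟩
    · exact ka.elim h3 h4
    · exact kb.elim h3 h4
  · push Not at hcase3
    obtain ⟨w, hwS, hwy, hwz, hwx⟩ := hcase3
    have cw := card_orb (K := K) w
    have aw := (hS w).1 hwS
    have sw := sum_orb (K := K) w
    rw [hB, add_zero] at sw
    have hd2 : Disjoint ((fO K y).disjUnion ((fO K z).disjUnion (fO K x) (fO_disj hxz)) hd)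
        (fO K w) := Finset.disjoint_left.2 (fun v hv hv' => by
      rcases Finset.mem_disjUnion.1 hv with h | h
      · exact Finset.disjoint_left.1 (fO_disj hwy) h hv'
      · rcases Finset.mem_disjUnion.1 h with h | h
        · exact Finset.disjoint_left.1 (fO_disj hwz) h hv'
        · exact Finset.disjoint_left.1 (fO_disj hwx) h hv')
    have hle : ∑ v ∈ ((fO K y).disjUnion ((fO K z).disjUnion (fO K x) (fO_disj hxz)) hd).disjUnion
        (fO K w) hd2, ((fA (K := K) v).card + (fB (K := K) v).card)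
        ≤ ∑ v ∈ S, ((fA (K := K) v).card + (fB (K := K) v).card) := by
      apply Finset.sum_le_sum_of_subset
      intro v hv
      rcases Finset.mem_disjUnion.1 hv with h | h
      · exact hsubU v h
      · exact hsub w hwS h
    rw [Finset.sum_disjUnion, Finset.sum_disjUnion, Finset.sum_disjUnion, sy, sz, sx, sw,
      hsum] at hle
    exact arith4 _ _ _ _ _ _ _ _ _ hKpos cy cz cx cw (by omega) az1 ax1 aw hle

end

theorem dk0_thm : DK0Stmt := by
  intro K Ω _ _ _ hZ hpar hfix hpair
  have := Fintype.ofFinite K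
  exact main hZ hpar hfix hpair

end Pool.Agent.H40.SCG2
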